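import Pool.Agent.Q270.MB.Minimal

/-!
# A vanishing short sum of large powers of independent numbers vanishes for every base
-/

set_option autoImplicit false

namespace Pool.Agent.Q270.MB

open Finset Real Filter Topology

/-- in a minimal vanishing sum all bases are the same -/
lemma same_base {n : ℕ} (b : Fin n → ℕ) (hb : ∀ j, 2 ≤ b j) (k : ℕ) (κ : ℝ) (hκ : 0 < κ) :
    ∃ η : ℝ, 0 < η ∧ ∃ M0 : ℕ, ∀ M : ℕ, M0 ≤ M → ∀ (T : Finset (Fin k)) (jj : Fin k → Fin n)
      (nn : Fin k → ℕ) (h : Fin k → ℤ),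
      (∀ i ∈ T, ∀ i' ∈ T, jj i ≠ jj i' → MultIndep (b (jj i)) (b (jj i'))) →
      (∀ i ∈ T, (M : ℝ) ^ κ ≤ (b (jj i) : ℝ) ^ nn i) → (∀ i ∈ T, |(h i : ℝ)| ≤ (M : ℝ) ^ η) →
      (∀ i ∈ T, h i ≠ 0) → T.Nonempty → ∑ i ∈ T, h i * ((b (jj i) ^ nn i : ℕ) : ℤ) = 0 →
      (∀ T' ⊆ T, T'.Nonempty → T' ≠ T → ∑ i ∈ T', h i * ((b (jj i) ^ nn i : ℕ) : ℤ) ≠ 0) →
      ∀ i ∈ T, ∀ i' ∈ T, jj i = jj i' := by
  classical
  obtain ⟨K, hK, hmin⟩ := minimal (univ.biUnion fun j => (b j).primeFactors) k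
  -- the constants of the ratios
  have hV : ∀ p : Fin n × Fin n, ∃ V : ℝ, 0 ≤ V ∧ (MultIndep (b p.1) (b p.2) →
      ∀ (n n' : ℕ) (A A' z z' : ℤ), A ≠ 0 → A' ≠ 0 → z ≠ 0 → z' ≠ 0 →
      A * (z' * ((b p.2 : ℕ) : ℤ) ^ n') = A' * (z * ((b p.1 : ℕ) : ℤ) ^ n) →
      (n : ℝ) * Real.log 2 ≤ V * (Real.log |(A : ℝ)| + Real.log |(A' : ℝ)| +
        Real.log |(z : ℝ)| + Real.log |(z' : ℝ)|)) := by
    rintro ⟨j, j'⟩
    by_cases h : MultIndep (b j) (b j')
    · obtain ⟨V, hV, h1⟩ := ratio (hb j) (hb j') h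
      exact ⟨V, hV, fun _ => h1⟩
    · exact ⟨0, le_rfl, fun h1 => absurd h1 h⟩
  choose V hV0 hV using hV
  set V1 : ℝ := 1 + ∑ p, V p with hV1
  have hV1pos : 1 ≤ V1 := by
    have : 0 ≤ ∑ p, V p := sum_nonneg fun p _ => hV0 p
    linarith
  have hVle : ∀ p, V p ≤ V1 := fun p => by
    have := Finset.single_le_sum (f := V) (fun p _ => hV0 p) (mem_univ p)
    linarith
  set B1 : ℝ := 1 + ∑ j, log (b j : ℝ) with hB1
  have hlogb : ∀ j, 0 ≤ log (b j : ℝ) := fun j => Real.log_nonneg (by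
    have := hb j
    exact_mod_cast (by omega : 1 ≤ b j))
  have hB1pos : 1 ≤ B1 := by
    have : 0 ≤ ∑ j, log (b j : ℝ) := sum_nonneg fun j _ => hlogb j
    linarith
  have hBle : ∀ j, log (b j : ℝ) ≤ B1 := fun j => by
    have := Finset.single_le_sum (f := fun j => log (b j : ℝ)) (fun j _ => hlogb j) (mem_univ j)
    linarith
  have hl2 : 0 < log 2 := Real.log_pos one_lt_two
  set η : ℝ := κ * log 2 / (4 * (B1 * V1 * (2 * K + 2))) with hη
  have hη0 : 0 < η := by positivity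
  have hlog : Tendsto (fun M : ℕ => log (M : ℝ)) atTop atTop :=
    Real.tendsto_log_atTop.comp tendsto_natCast_atTop_atTop
  obtain ⟨M0, hM0⟩ := eventually_atTop.1 ((hlog.eventually_ge_atTop
    (4 * (B1 * V1 * (2 * K * log K)) / (κ * log 2))).and ((eventually_ge_atTop 2).and
      (hlog.eventually_gt_atTop 0)))
  refine ⟨η, hη0, M0, ?_⟩
  intro M hM T jj nn h hind hlow hh hh0 hT hsum hsub i hi i' hi'
  obtain ⟨c1, c2, c3⟩ := hM0 M hM
  have hMR : (2 : ℝ) ≤ M := by exact_mod_cast c2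
  have hMp : (0 : ℝ) < M := by linarith
  by_contra hne
  have hX : (1 : ℝ) ≤ (M : ℝ) ^ η := Real.one_le_rpow (by linarith) hη0.le
  obtain ⟨A, G, hG, hA⟩ := hmin ((M : ℝ) ^ η) hX T (fun i => b (jj i) ^ nn i) h hT
    (fun i _ => ⟨pow_ne_zero _ (by have := hb (jj i); omega), by
      intro p hp
      rw [Nat.mem_primeFactors] at hp
      rw [mem_biUnion]
      refine ⟨jj i, mem_univ _, ?_⟩
      rw [Nat.mem_primeFactors]
      exact ⟨hp.1, hp.1.dvd_of_dvd_pow hp.2.1, by have := hb (jj i); omega⟩⟩)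
    (fun i hi => ⟨hh0 i hi, hh i hi⟩) hsum hsub
  obtain ⟨h1, h2, h3⟩ := hA i hi
  obtain ⟨h1', h2', h3'⟩ := hA i' hi'
  have hrel : A i * (h i' * ((b (jj i') : ℕ) : ℤ) ^ nn i') =
      A i' * (h i * ((b (jj i) : ℕ) : ℤ) ^ nn i) := by
    push_cast at h2 h2'
    rw [h2, h2']
    ring
  have key := hV (jj i, jj i') (hind i hi i' hi' hne) (nn i) (nn i') (A i) (A i') (h i) (h i')
    h1 h1' (hh0 i hi) (hh0 i' hi') hrel
  have hlogM : 0 < log (M : ℝ) := c3
  have hKX : log ((K * (M : ℝ) ^ η) ^ K) = K * (log K + η * log M) := by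
    rw [Real.log_rpow (by positivity), Real.log_mul (by positivity) (by positivity),
      Real.log_rpow hMp]
  have hlogA : ∀ {z : ℤ}, z ≠ 0 → |(z : ℝ)| ≤ (K * (M : ℝ) ^ η) ^ K →
      log |(z : ℝ)| ≤ K * (log K + η * log M) := by
    intro z hz hz2
    rw [← hKX]
    exact Real.log_le_log (abs_pos.2 (by exact_mod_cast hz)) hz2
  have hlogh : ∀ {z : ℤ}, z ≠ 0 → |(z : ℝ)| ≤ (M : ℝ) ^ η → log |(z : ℝ)| ≤ η * log M := by
    intro z hz hz2
    rw [← Real.log_rpow hMp]
    exact Real.log_le_log (abs_pos.2 (by exact_mod_cast hz)) hz2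
  have e1 := hlogA h1 h3
  have e2 := hlogA h1' h3'
  have e3 := hlogh (hh0 i hi) (hh i hi)
  have e4 := hlogh (hh0 i' hi') (hh i' hi')
  have hnn : κ * log M ≤ nn i * B1 := by
    have g1 := Real.log_le_log (by positivity) (hlow i hi)
    rw [Real.log_rpow hMp, Real.log_pow] at g1
    refine g1.trans ?_
    gcongr
    exact hBle _
  have hlogK : 0 ≤ log K := Real.log_nonneg hK
  have hsum4 : log |(A i : ℝ)| + log |(A i' : ℝ)| + log |(h i : ℝ)| + log |(h i' : ℝ)| ≤
      2 * K * log K + (2 * K + 2) * η * log M := by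
    calc _ ≤ K * (log K + η * log M) + K * (log K + η * log M) + η * log M + η * log M := by
          linarith
      _ = _ := by ring
  have hle : (nn i : ℝ) * log 2 ≤ V1 * (2 * K * log K + (2 * K + 2) * η * log M) := by
    refine key.trans ?_
    have g0 : 0 ≤ 2 * K * log K + (2 * K + 2) * η * log M := by positivity
    calc V (jj i, jj i') * (log |(A i : ℝ)| + log |(A i' : ℝ)| + log |(h i : ℝ)| +
          log |(h i' : ℝ)|) ≤ V (jj i, jj i') * (2 * K * log K + (2 * K + 2) * η * log M) := by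
          gcongr
          exact hV0 _
      _ ≤ _ := by
          gcongr
          exact hVle _
  have hfin : κ * log 2 * log M ≤ B1 * V1 * (2 * K * log K) +
      B1 * V1 * (2 * K + 2) * η * log M := by
    calc κ * log 2 * log M = (κ * log M) * log 2 := by ring
      _ ≤ (nn i * B1) * log 2 := by gcongr
      _ = B1 * (nn i * log 2) := by ring
      _ ≤ B1 * (V1 * (2 * K * log K + (2 * K + 2) * η * log M)) := by gcongr
      _ = _ := by ring
  have hterm1 : B1 * V1 * (2 * K * log K) ≤ κ * log 2 / 4 * log M := by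
    rw [div_le_iff₀ (by positivity)] at c1
    linarith
  have hterm2 : B1 * V1 * (2 * K + 2) * η * log M = κ * log 2 / 4 * log M := by
    rw [hη]
    field_simp
  rw [hterm2] at hfin
  have : 0 < κ * log 2 * log M := by positivity
  nlinarith

/-- a vanishing short sum vanishes for every base -/
theorem indep_sum {n : ℕ} (b : Fin n → ℕ) (hb : ∀ j, 2 ≤ b j) (k : ℕ) (κ : ℝ) (hκ : 0 < κ) :
    ∃ η : ℝ, 0 < η ∧ ∃ M0 : ℕ, ∀ M : ℕ, M0 ≤ M → ∀ (T : Finset (Fin k)) (jj : Fin k → Fin n)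
      (nn : Fin k → ℕ) (h : Fin k → ℤ),
      (∀ i ∈ T, ∀ i' ∈ T, jj i ≠ jj i' → MultIndep (b (jj i)) (b (jj i'))) →
      (∀ i ∈ T, (M : ℝ) ^ κ ≤ (b (jj i) : ℝ) ^ nn i) → (∀ i ∈ T, |(h i : ℝ)| ≤ (M : ℝ) ^ η) →
      ∑ i ∈ T, h i * ((b (jj i) ^ nn i : ℕ) : ℤ) = 0 →
      ∀ j, ∑ i ∈ T with jj i = j, h i * ((b (jj i) ^ nn i : ℕ) : ℤ) = 0 := by
  classical
  obtain ⟨η, hη, M0, hM0⟩ := same_base b hb k κ hκ
  refine ⟨η, hη, M0, ?_⟩
  intro M hM T jj nn h
  -- induction on the number of the terms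
  induction hc : T.card using Nat.strong_induction_on generalizing T with
  | _ c ih =>
  intro hind hlow hh hsum j
  by_cases hz : ∃ i ∈ T, h i = 0
  · obtain ⟨i, hi, hi0⟩ := hz
    have hcard : (T.erase i).card < c := by
      rw [← hc]
      exact card_erase_lt_of_mem hi
    have h1 := ih _ hcard (T.erase i) rfl
      (fun a ha a' ha' => hind a (mem_of_mem_erase ha) a' (mem_of_mem_erase ha'))
      (fun a ha => hlow a (mem_of_mem_erase ha)) (fun a ha => hh a (mem_of_mem_erase ha))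
      (by
        rw [← hsum, ← Finset.add_sum_erase T _ hi, hi0, zero_mul, zero_add]) j
    rw [← h1, Finset.filter_erase]
    by_cases hij : i ∈ T.filter (fun i => jj i = j)
    · rw [← Finset.add_sum_erase _ _ hij, hi0, zero_mul, zero_add]
    · rw [Finset.erase_eq_of_notMem hij]
  push Not at hz
  rcases T.eq_empty_or_nonempty with hT | hT
  · rw [hT]
    simp
  -- a minimal vanishing subsum
  set F : Finset (Finset (Fin k)) := T.powerset.filter
    (fun U => U.Nonempty ∧ ∑ i ∈ U, h i * ((b (jj i) ^ nn i : ℕ) : ℤ) = 0) with hF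
  have hFne : F.Nonempty := ⟨T, by
    rw [hF, mem_filter, mem_powerset]
    exact ⟨subset_rfl, hT, hsum⟩⟩
  obtain ⟨U, hU, hUmin⟩ := Finset.exists_min_image F card hFne
  rw [hF, mem_filter, mem_powerset] at hU
  obtain ⟨hUT, hUne, hUsum⟩ := hU
  have hsame := hM0 M hM U jj nn h
    (fun a ha a' ha' => hind a (hUT ha) a' (hUT ha'))
    (fun a ha => hlow a (hUT ha)) (fun a ha => hh a (hUT ha)) (fun a ha => hz a (hUT ha)) hUne
    hUsum (fun T' hT' hT'ne hT'U h0 => by
      have h1 := hUmin T' (by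
        rw [hF, mem_filter, mem_powerset]
        exact ⟨hT'.trans hUT, hT'ne, h0⟩)
      have h2 := card_lt_card (ssubset_of_subset_of_ne hT' hT'U)
      omega)
  have hcard : (T \ U).card < c := by
    rw [← hc]
    apply card_lt_card
    refine ssubset_of_subset_of_ne sdiff_subset fun h0 => ?_
    obtain ⟨u, hu⟩ := hUne
    have := hUT hu
    rw [← h0] at this
    exact (Finset.mem_sdiff.1 this).2 hu
  have hrest := ih _ hcard (T \ U) rfl
    (fun a ha a' ha' => hind a (mem_sdiff.1 ha).1 a' (mem_sdiff.1 ha').1)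
    (fun a ha => hlow a (mem_sdiff.1 ha).1) (fun a ha => hh a (mem_sdiff.1 ha).1)
    (by
      have h1 := Finset.sum_sdiff hUT (f := fun i => h i * ((b (jj i) ^ nn i : ℕ) : ℤ))
      rw [hUsum, hsum, add_zero] at h1
      exact h1) j
  have hUj : ∑ i ∈ U with jj i = j, h i * ((b (jj i) ^ nn i : ℕ) : ℤ) = 0 := by
    by_cases hex : ∃ u ∈ U, jj u = j
    · obtain ⟨u, hu, huj⟩ := hex
      have : U.filter (fun i => jj i = j) = U := by
        rw [filter_eq_self]
        intro a ha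
        rw [hsame a ha u hu, huj]
      rw [this, hUsum]
    · push Not at hex
      have : U.filter (fun i => jj i = j) = ∅ := by
        rw [filter_eq_empty_iff]
        exact fun a ha => hex a ha
      rw [this, sum_empty]
  have hdisj : Disjoint ((T \ U).filter (fun i => jj i = j)) (U.filter (fun i => jj i = j)) :=
    disjoint_filter_filter sdiff_disjoint
  have hun : T.filter (fun i => jj i = j) =
      (T \ U).filter (fun i => jj i = j) ∪ U.filter (fun i => jj i = j) := by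
    rw [← filter_union, sdiff_union_of_subset hUT]
  rw [hun, sum_union hdisj, hrest, hUj, add_zero]

end Pool.Agent.Q270.MB
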