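import Pool.Agent.Q270.AA.Str
import Pool.Agent.Q270.PX.Dioph0
import Pool.Agent.Q270.MB.Sum

/-!
# The same number in several multiplicatively independent bases
-/

set_option autoImplicit false

namespace Pool.Agent.Q270.MB

open Finset Real MeasureTheory Filter Topology ProbabilityTheory
open Pool.Agent.Y933.KD (wd)
open Pool.Agent.Y933.KE (WE TW WE_empty measurableSet_WE)
open Pool.Agent.TH419.WI (Smooth)
open Pool.Agent.Y951.TU (hat lin lin_apply measurable_lin Cube hat_Cube unif unif_prob integral_unif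
  real_unif Ev measurableSet_Ev power exists_ge exists_pos_le Psi measurable_Psi tq Ev_tq mix mix_lt
  mix_inj mix_surj tw tw_lt wd_Psi prod_pos' Cube_WE two_le_prod)
open Pool.Agent.Q270.PX (SXS SXS_prob dioph_ne)

variable {r : ℕ} {ι : Type*}

/-- the frequencies `b_j ^ n e_j` -/
def FrP (b : Fin r → ℕ) (κ A : ℝ) (M : ℕ) : Set (Fin r → ℤ) :=
  {q | ∃ (nn : ℕ) (j : Fin r), (M : ℝ) ^ κ ≤ (b j : ℝ) ^ nn ∧ (b j : ℝ) ^ nn ≤ (M : ℝ) ^ A ∧
    q = fun j' => ((b j ^ nn : ℕ) : ℤ) * (Pi.single j 1 : Fin r → ℤ) j'}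

/-- small Fourier coefficients at the nonzero sums of `k` terms `h b_j ^ n e_j` -/
def GoodP (b : Fin r → ℕ) (S : ℕ → Set (Measure (Fin r → ℝ))) (κ A : ℝ) : Prop :=
  ∀ k : ℕ, ∃ η : ℝ, 0 < η ∧ ∃ M0 : ℕ, ∀ M : ℕ, M0 ≤ M → ∀ P ∈ S M, ∀ q : Fin k → Fin r → ℤ,
    (∀ i, q i ∈ FrP b κ A M) → ∀ h : Fin k → ℤ, (∀ i, |(h i : ℝ)| ≤ (M : ℝ) ^ η) →
    ∑ i, h i • q i ≠ 0 → ‖hat (lin r) P (∑ i, h i • q i)‖ ≤ (M : ℝ) ^ (-η)

lemma FrP_ne {b : Fin r → ℕ} (hb : ∀ j, 1 ≤ b j) {κ A : ℝ} (M : ℕ) (q : Fin r → ℤ)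
    (hq : q ∈ FrP b κ A M) (h : ℤ) (hh : h ≠ 0) : h • q ≠ 0 := by
  obtain ⟨s, j, _, _, rfl⟩ := hq
  intro h0
  have h1 := congrFun h0 j
  simp only [Pi.smul_apply, smul_eq_mul, Pi.single_eq_same, mul_one, Pi.zero_apply] at h1
  have h2 : ((b j ^ s : ℕ) : ℤ) ≠ 0 := by
    have h3 : b j ^ s ≠ 0 := pow_ne_zero _ (by have := hb j; omega)
    exact_mod_cast h3
  rcases mul_eq_zero.1 h1 with h3 | h3
  · exact absurd h3 hh
  · exact absurd h3 h2

/-- the tests -/
theorem tests_P {b : Fin r → ℕ} (hb : ∀ j, 1 ≤ b j) {S : ℕ → Set (Measure (Fin r → ℝ))} {κ A : ℝ}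
    (hS : ∀ M, 1 ≤ M → ∀ P ∈ S M, IsProbabilityMeasure P) (hG : GoodP b S κ A) (k : ℕ) :
    ∃ δ : ℝ, 0 < δ ∧ ∃ C : ℝ, ∀ M : ℕ, 1 ≤ M → ∀ P ∈ S M, ∀ q : Fin k → Fin r → ℤ,
      (∀ i, q i ∈ FrP b κ A M) →
      ∀ u v : Fin k → ℝ, (∀ i, 0 ≤ u i) → (∀ i, v i ≤ 1) →
      |P.real (Ev (lin r) q u v) - (Cube r).real (Ev (lin r) q u v)| ≤ C * (M : ℝ) ^ (-δ) := by
  obtain ⟨η, hη, M0, hM0⟩ := hG k
  obtain ⟨δ, hδ, _, C, hC⟩ := power (φ := lin r) measurable_lin (Cube r) hat_Cube k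
    (S := S) (T := fun M => FrP b κ A M) (fun M q hq h hh => FrP_ne hb M q hq h hh) hS hη M0 hM0
  exact ⟨δ, hδ, C, fun M hM P hP q hq u v hu hv => hC M hM P hP q hq u v hu hv⟩

theorem TW_P {κ Am : ℝ} {S : ℕ → Set (Measure (Fin r → ℝ))}
    (hS : ∀ M, 1 ≤ M → ∀ P ∈ S M, IsProbabilityMeasure P) {b : Fin r → ℕ}
    (hb : ∀ j, 1 ≤ b j) (hG : GoodP b S κ Am) (A0 A1 : ℝ) {B1 : ℝ} (hB1' : 1 ≤ B1)
    (hbB : ∀ j, (b j : ℝ) ≤ B1)
    (hAm : (|A0| + |A1|) * log B1 ≤ Am) (k : ℕ) : TW (∏ j, b j) k A1 (SXS κ S b A0 A1) := by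
  obtain ⟨δ, hδ, C, hC⟩ := tests_P hb hS hG (k * r)
  refine ⟨δ, hδ, |C|, fun M hM P' hP' n w c hn => ?_⟩
  obtain ⟨P, hP, s, J, hs, hsκ, hJ, rfl⟩ := hP'
  have := hS M hM P hP
  have hprob := Measure.isProbabilityMeasure_map (μ := P) (measurable_Psi b J s).aemeasurable
  have hq : 1 ≤ ∏ j, b j := prod_pos' hb
  have hMR : (1 : ℝ) ≤ M := by exact_mod_cast hM
  have hMp : (0 : ℝ) < M := by linarith
  have hlog0 : 0 ≤ log (M : ℝ) := Real.log_nonneg hMR
  have hM0 : 0 ≤ (M : ℝ) ^ (-δ) := by positivity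
  have hnJ : ∀ i, n i + w i ≤ J := fun i => by
    have := (hn i).trans hJ
    exact_mod_cast this
  by_cases hc : ∃ i, (∏ j, b j) ^ w i ≤ c i
  · obtain ⟨i, hi⟩ := hc
    rw [WE_empty hq hi, measureReal_empty, measureReal_empty, sub_self, abs_zero]
    positivity
  push Not at hc
  choose V hV hV2 using fun i => mix_surj hb (w i) (c i) (hc i)
  rw [← Cube_WE hb s n w c, map_measureReal_apply (measurable_Psi b J s) (measurableSet_WE _ _ _ _)]
  have h1 : Psi b J s ⁻¹' WE (∏ j, b j) n w c =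
      {x | ∀ i, mix b (w i) (tw b (w i) (fun j => s j + n i) x) = c i} := by
    ext x
    unfold WE
    simp only [Set.mem_preimage, Set.mem_ofPred_eq]
    exact forall_congr' fun i => by rw [wd_Psi hb (hnJ i)]
  have h2 : {x : Fin r → ℝ | ∀ i, mix b (w i) (tw b (w i) (fun j => s j + n i) x) = c i} =
      {x | ∀ i, tw b (w i) (fun j => s j + n i) x = V i} := by
    ext x
    simp only [Set.mem_ofPred_eq]
    refine forall_congr' fun i => ?_
    rw [← hV2 i]
    constructor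
    · intro h
      exact mix_inj hb (w i) _ _ (tw_lt hb _ _ _) (hV i) h
    · intro h
      rw [h]
  rw [h1, h2, Ev_tq hb]
  refine (hC M hM P hP _ (fun p => ?_) _ _ (fun p => by positivity) (fun p => ?_)).trans ?_
  · set j := (finProdFinEquiv.symm p).2 with hj
    set i := (finProdFinEquiv.symm p).1 with hi
    have hbj0 : 1 ≤ b j := hb j
    have hbj : (1 : ℝ) ≤ b j := by exact_mod_cast hbj0
    have hpow : ((b j : ℝ) ^ (s j + n i)) ≤ (M : ℝ) ^ Am := by
      have h3 : ((s j + n i : ℕ) : ℝ) ≤ (|A0| + |A1|) * log M := by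
        push_cast
        have h4 : (s j : ℝ) ≤ |A0| * log M := (hs j).trans (by gcongr; exact le_abs_self _)
        have h5 : (n i : ℝ) ≤ |A1| * log M := by
          have h6 := hn i
          have h7 : (0 : ℝ) ≤ w i := Nat.cast_nonneg _
          calc (n i : ℝ) ≤ A1 * log M := by linarith
            _ ≤ |A1| * log M := by gcongr; exact le_abs_self _
        linarith
      calc (b j : ℝ) ^ (s j + n i) ≤ B1 ^ (s j + n i) := by gcongr; exact hbB j
        _ = B1 ^ ((s j + n i : ℕ) : ℝ) := (Real.rpow_natCast _ _).symm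
        _ ≤ B1 ^ ((|A0| + |A1|) * log M) := Real.rpow_le_rpow_of_exponent_le hB1' h3
        _ = (M : ℝ) ^ ((|A0| + |A1|) * log B1) := by
            rw [Real.rpow_def_of_pos (by linarith), Real.rpow_def_of_pos hMp]
            congr 1
            ring
        _ ≤ (M : ℝ) ^ Am := Real.rpow_le_rpow_of_exponent_le hMR hAm
    refine ⟨s j + n i, j, ?_, hpow, rfl⟩
    refine (hsκ j).trans ?_
    exact pow_le_pow_right₀ hbj (Nat.le_add_right _ _)
  · have hbj : (0 : ℝ) < b (finProdFinEquiv.symm p).2 := by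
      exact_mod_cast hb (finProdFinEquiv.symm p).2
    rw [div_le_one (by positivity)]
    exact_mod_cast hV (finProdFinEquiv.symm p).1 (finProdFinEquiv.symm p).2
  · exact mul_le_mul_of_nonneg_right (le_abs_self C) (by positivity)

/-- small Fourier coefficients at all frequencies of a given size -/
def SizeB (r : ℕ) (S : ℕ → Set (Measure (Fin r → ℝ))) (κ A : ℝ) : Prop :=
  ∃ η : ℝ, 0 < η ∧ ∃ M0 : ℕ, ∀ M : ℕ, M0 ≤ M → ∀ P ∈ S M, ∀ l : Fin r → ℤ,
    (∃ j, (M : ℝ) ^ κ ≤ |(l j : ℝ)|) → (∀ j, |(l j : ℝ)| ≤ (M : ℝ) ^ A) →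
    ‖hat (lin r) P l‖ ≤ (M : ℝ) ^ (-η)

/-- the laws of the tuples with repeated entries -/
def SRep {n : ℕ} (σ : Fin n → Fin r) (S : ℕ → Set (Measure (Fin r → ℝ))) (M : ℕ) :
    Set (Measure (Fin n → ℝ)) :=
  {Q | ∃ P ∈ S M, Q = P.map (fun x j => x (σ j))}

lemma measurable_rep {n : ℕ} (σ : Fin n → Fin r) :
    Measurable (fun (x : Fin r → ℝ) (j : Fin n) => x (σ j)) :=
  measurable_pi_lambda _ fun j => measurable_pi_apply _

lemma SRep_prob {n : ℕ} (σ : Fin n → Fin r) {S : ℕ → Set (Measure (Fin r → ℝ))}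
    (hS : ∀ M, 1 ≤ M → ∀ P ∈ S M, IsProbabilityMeasure P) (M : ℕ) (hM : 1 ≤ M)
    (P : Measure (Fin n → ℝ)) (hP : P ∈ SRep σ S M) : IsProbabilityMeasure P := by
  obtain ⟨P0, hP0, rfl⟩ := hP
  have := hS M hM P0 hP0
  exact Measure.isProbabilityMeasure_map (measurable_rep σ).aemeasurable

/-- the frequency of the underlying tuple -/
def push {n : ℕ} (σ : Fin n → Fin r) (l : Fin n → ℤ) (c : Fin r) : ℤ := ∑ j with σ j = c, l j

lemma lin_push {n : ℕ} (σ : Fin n → Fin r) (l : Fin n → ℤ) (x : Fin r → ℝ) :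
    lin n l (fun j => x (σ j)) = lin r (push σ l) x := by
  classical
  rw [lin_apply, lin_apply]
  unfold push
  push_cast
  simp only [Finset.sum_mul]
  rw [← Finset.sum_fiberwise (s := univ) (g := σ) (f := fun j => (l j : ℝ) * x (σ j))]
  refine sum_congr rfl fun c _ => sum_congr rfl fun j hj => ?_
  rw [(mem_filter.1 hj).2]

lemma hat_rep {n : ℕ} (σ : Fin n → Fin r) (P : Measure (Fin r → ℝ)) (l : Fin n → ℤ) :
    hat (lin n) (P.map (fun x j => x (σ j))) l = hat (lin r) P (push σ l) := by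
  unfold hat
  rw [integral_map (measurable_rep σ).aemeasurable]
  · simp only [lin_push]
  · apply Measurable.aestronglyMeasurable
    have h1 : Measurable (fun x : Fin n → ℝ => lin n l x) := measurable_lin l
    exact (Pool.Agent.Y933.KD.continuous_e.measurable).comp h1

theorem good_P {n : ℕ} (σ : Fin n → Fin r) {S : ℕ → Set (Measure (Fin r → ℝ))} {κ A : ℝ}
    (hκ : 0 < κ) (hA : 0 ≤ A) (H : SizeB r S (κ / 2) (A + 2)) (b : Fin n → ℕ)
    (hb : ∀ j, 2 ≤ b j) (hind : ∀ j j', j ≠ j' → σ j = σ j' → MultIndep (b j) (b j')) :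
    GoodP b (SRep σ S) κ A := by
  classical
  intro k
  obtain ⟨η0, hη0, M1, hM1⟩ := H
  obtain ⟨η2, hη2, M2, hM2⟩ := indep_sum b hb k κ hκ
  set Sm : Finset ℕ := univ.biUnion fun j => (b j).primeFactors with hSm
  obtain ⟨η1, hη1, L1, hL1⟩ := dioph_ne (r := 1) (fun _ => (1 : ℝ)) (fun _ => isAlgebraic_one) Sm
    (fun p hp => by
      rw [hSm, mem_biUnion] at hp
      obtain ⟨j, _, hj⟩ := hp
      exact (Nat.prime_of_mem_primeFactors hj).pos) k A (κ / 2) hA (by positivity)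
  set η : ℝ := min (min (min η1 1) η0) η2 with hη
  have hη0' : 0 < η := lt_min (lt_min (lt_min hη1 one_pos) hη0) hη2
  have hηη1 : η ≤ η1 := (min_le_left _ _).trans ((min_le_left _ _).trans (min_le_left _ _))
  have hη11 : η ≤ 1 := (min_le_left _ _).trans ((min_le_left _ _).trans (min_le_right _ _))
  have hηη0 : η ≤ η0 := (min_le_left _ _).trans (min_le_right _ _)
  have hηη2 : η ≤ η2 := min_le_right _ _
  have hlog : Tendsto (fun M : ℕ => log (M : ℝ)) atTop atTop :=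
    Real.tendsto_log_atTop.comp tendsto_natCast_atTop_atTop
  have hcast : Tendsto (fun M : ℕ => (M : ℝ)) atTop atTop := tendsto_natCast_atTop_atTop
  have hev : ∀ᶠ M : ℕ in atTop, M1 ≤ M ∧ L1 ≤ log (M : ℝ) ∧ (k : ℝ) ≤ M ∧ (1 : ℝ) ≤ M ∧
      M2 ≤ M := by
    filter_upwards [eventually_ge_atTop M1, hlog.eventually_ge_atTop L1,
      hcast.eventually_ge_atTop (k : ℝ), hcast.eventually_ge_atTop 1, eventually_ge_atTop M2]
      with M a1 a2 a3 a5 a6
    exact ⟨a1, a2, a3, a5, a6⟩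
  obtain ⟨M0, hM0⟩ := eventually_atTop.1 hev
  refine ⟨η, hη0', M0, ?_⟩
  intro M hM μ hμ qq hqq h hh hne
  obtain ⟨b1, b2, b3, b5, b6⟩ := hM0 M hM
  obtain ⟨P, hP, rfl⟩ := hμ
  have hMp : (0 : ℝ) < M := by linarith
  have hexpM : ∀ a : ℝ, Real.exp (a * log (M : ℝ)) = (M : ℝ) ^ a := fun a => by
    rw [Real.rpow_def_of_pos hMp, mul_comm]
  choose nn jj hs2 hs3 hs4 using hqq
  set s : Fin k → ℕ := fun i => b (jj i) ^ nn i with hs
  have hs1 : ∀ i, Smooth Sm (s i) := by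
    intro i
    refine ⟨pow_ne_zero _ (by have := hb (jj i); omega), ?_⟩
    intro p hp
    rw [hSm, mem_biUnion]
    refine ⟨jj i, mem_univ _, ?_⟩
    rw [Nat.mem_primeFactors] at hp ⊢
    exact ⟨hp.1, hp.1.dvd_of_dvd_pow hp.2.1, by have := hb (jj i); omega⟩
  have hs2' : ∀ i, (M : ℝ) ^ κ ≤ (s i : ℝ) := fun i => by
    rw [hs]
    push_cast
    exact hs2 i
  have hs3' : ∀ i, (s i : ℝ) ≤ (M : ℝ) ^ A := fun i => by
    rw [hs]
    push_cast
    exact hs3 i
  set l : Fin n → ℤ := ∑ i, h i • qq i with hl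
  have hlj : ∀ j, l j = ∑ i with jj i = j, h i * ((b (jj i) ^ nn i : ℕ) : ℤ) := by
    intro j
    rw [hl, Finset.sum_apply, sum_filter]
    refine sum_congr rfl fun i _ => ?_
    rw [Pi.smul_apply, hs4 i, smul_eq_mul]
    show h i * (((b (jj i) ^ nn i : ℕ) : ℤ) * (Pi.single (jj i) 1 : Fin n → ℤ) j) = _
    by_cases hij : jj i = j
    · subst hij
      rw [if_pos rfl, Pi.single_eq_same, mul_one]
    · rw [if_neg hij, Pi.single_eq_of_ne (Ne.symm hij), mul_zero, mul_zero]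
  have hLc : ∀ c, push σ l c = ∑ i with σ (jj i) = c, h i * ((b (jj i) ^ nn i : ℕ) : ℤ) := by
    intro c
    unfold push
    simp only [hlj]
    rw [← Finset.sum_fiberwise_of_maps_to (s := univ.filter fun i => σ (jj i) = c)
      (t := univ.filter fun j => σ j = c) (g := jj) (fun i hi => by
        simp only [mem_filter, mem_univ, true_and] at hi ⊢
        exact hi)]
    refine sum_congr rfl fun j hj => sum_congr ?_ fun _ _ => rfl
    ext i
    simp only [mem_filter, mem_univ, true_and] at hj ⊢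
    constructor
    · intro h0
      exact ⟨by rw [h0]; exact hj, h0⟩
    · exact fun h0 => h0.2
  have hk : Nonempty (Fin k) := by
    by_contra hcon
    rw [not_nonempty_iff] at hcon
    apply hne
    rw [hl]
    exact Finset.sum_of_isEmpty _
  obtain ⟨i0, -, hi0⟩ := Finset.exists_min_image univ s (univ_nonempty (α := Fin k))
  obtain ⟨j0, hj0⟩ : ∃ j, l j ≠ 0 := by
    by_contra hcon
    push Not at hcon
    exact hne (funext hcon)
  -- the frequency of the underlying tuple does not vanish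
  have hc0 : push σ l (σ j0) ≠ 0 := by
    intro h0
    rw [hLc] at h0
    have h1 := hM2 M b6 (univ.filter fun i => σ (jj i) = σ j0) jj nn h
      (fun i hi i' hi' hne' => by
        simp only [mem_filter, mem_univ, true_and] at hi hi'
        exact hind _ _ hne' (hi.trans hi'.symm)) (fun i _ => hs2 i)
      (fun i _ => (hh i).trans (Real.rpow_le_rpow_of_exponent_le b5 hηη2)) h0 j0
    apply hj0
    rw [hlj, ← h1]
    refine sum_congr ?_ fun _ _ => rfl
    ext i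
    simp only [mem_filter, mem_univ, true_and]
    constructor
    · intro h2
      exact ⟨by rw [h2], h2⟩
    · exact fun h2 => h2.2
  set cc : Fin k → Fin 1 → ℤ := fun i _ => if σ (jj i) = σ j0 then 1 else 0 with hcc
  have hcabs : ∀ i j, |(cc i j : ℝ)| ≤ 1 := by
    intro i j
    rw [hcc]
    simp only
    split_ifs <;> simp
  have hLcc : push σ l (σ j0) = ∑ i, h i * (s i * cc i 0) := by
    rw [hLc, sum_filter]
    refine sum_congr rfl fun i _ => ?_
    rw [hcc]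
    simp only
    split_ifs <;> simp [hs]
  -- the size of the frequency
  have hbig : (M : ℝ) ^ (κ / 2) ≤ |(push σ l (σ j0) : ℝ)| := by
    have h1 := hL1 (log M) b2 (s i0) s cc h (hs1 i0)
      (by rw [hexpM]; exact hs3' i0) (fun i => hi0 i (mem_univ i)) hs1
      (fun i => by rw [hexpM]; exact hs3' i)
      (fun i => by
        rw [hexpM]
        exact (hh i).trans (Real.rpow_le_rpow_of_exponent_le b5 hηη1))
      (fun i j' => by
        rw [hexpM]
        exact (hcabs i j').trans (Real.one_le_rpow b5 hη1.le))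
      (by
        rw [Fin.sum_univ_one, ← hLcc, mul_one]
        exact_mod_cast hc0)
    rw [Fin.sum_univ_one, ← hLcc, mul_one] at h1
    have h3 : Real.exp (-(κ / 2 * log (M : ℝ))) = (M : ℝ) ^ (-(κ / 2)) := by
      rw [← hexpM]
      congr 1
      ring
    rw [h3] at h1
    refine le_trans ?_ h1.le
    calc (M : ℝ) ^ (κ / 2) = (M : ℝ) ^ κ * (M : ℝ) ^ (-(κ / 2)) := by
          rw [← Real.rpow_add hMp]
          congr 1
          ring
      _ ≤ (s i0 : ℝ) * (M : ℝ) ^ (-(κ / 2)) := by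
          gcongr
          exact hs2' i0
  have hlbd : ∀ c, |(push σ l c : ℝ)| ≤ (M : ℝ) ^ (A + 2) := by
    intro c
    rw [hLc]
    push_cast
    calc |∑ i with σ (jj i) = c, (h i : ℝ) * (b (jj i) : ℝ) ^ nn i| ≤
          ∑ i with σ (jj i) = c, |(h i : ℝ) * (b (jj i) : ℝ) ^ nn i| := abs_sum_le_sum_abs _ _
      _ ≤ ∑ i, |(h i : ℝ) * (b (jj i) : ℝ) ^ nn i| :=
          sum_le_sum_of_subset_of_nonneg (filter_subset _ _) fun i _ _ => abs_nonneg _
      _ ≤ ∑ _i' : Fin k, (M : ℝ) ^ (1 : ℝ) * (M : ℝ) ^ A := by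
          refine sum_le_sum fun i' _ => ?_
          rw [abs_mul]
          have h5 : |(b (jj i') : ℝ) ^ nn i'| ≤ (M : ℝ) ^ A := by
            rw [abs_of_nonneg (by positivity)]
            exact hs3 i'
          have h6 : |(h i' : ℝ)| ≤ (M : ℝ) ^ (1 : ℝ) :=
            (hh i').trans (Real.rpow_le_rpow_of_exponent_le b5 hη11)
          exact mul_le_mul h6 h5 (abs_nonneg _) (by positivity)
      _ = k * ((M : ℝ) ^ (1 : ℝ) * (M : ℝ) ^ A) := by
          rw [sum_const, card_univ, Fintype.card_fin, nsmul_eq_mul]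
      _ ≤ M * ((M : ℝ) ^ (1 : ℝ) * (M : ℝ) ^ A) := by gcongr
      _ = (M : ℝ) ^ (A + 2) := by
          rw [show A + 2 = 1 + (1 + A) by ring, Real.rpow_add hMp, Real.rpow_add hMp,
            Real.rpow_one]
  rw [hat_rep]
  exact (hM1 M b1 P hP (push σ l) ⟨σ j0, hbig⟩ hlbd).trans
    (Real.rpow_le_rpow_of_exponent_le b5 (neg_le_neg hηη0))

end Pool.Agent.Q270.MB
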