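import Pool.Agent.TH551.HA.NTMain

/-!
# Short sums of powers of multiplicatively independent numbers with small coefficients
-/

set_option autoImplicit false

namespace Pool.Agent.Q270.MB

open Finset

/-- multiplicatively independent -/
def MultIndep (a b : ℕ) : Prop := ∀ x y : ℕ, 1 ≤ x → 1 ≤ y → a ^ x ≠ b ^ y

lemma MultIndep.symm {a b : ℕ} (h : MultIndep a b) : MultIndep b a :=
  fun x y hx hy he => h y x hy hx he.symm

lemma exists_minor {a b : ℕ} (ha : 2 ≤ a) (hb : 2 ≤ b) (h : MultIndep a b) :
    ∃ p q : ℕ, p.Prime ∧ q.Prime ∧ (a.factorization p : ℤ) * b.factorization q -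
      a.factorization q * b.factorization p ≠ 0 := by
  by_contra hcon
  push Not at hcon
  obtain ⟨p, hp, hpb⟩ := Nat.exists_prime_and_dvd (show b ≠ 1 by omega)
  have hy : 1 ≤ b.factorization p := (hp.dvd_iff_one_le_factorization (by omega)).1 hpb
  have heq : a ^ b.factorization p = b ^ a.factorization p := by
    apply Nat.eq_of_factorization_eq (pow_ne_zero _ (by omega)) (pow_ne_zero _ (by omega))
    intro q
    rw [Nat.factorization_pow, Nat.factorization_pow]
    simp only [Finsupp.smul_apply, smul_eq_mul]
    by_cases hq : q.Prime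
    · have h1 := hcon p q hp hq
      have h2 : (a.factorization p : ℤ) * b.factorization q =
        a.factorization q * b.factorization p := by linarith
      have h3 : a.factorization p * b.factorization q = a.factorization q * b.factorization p := by
        exact_mod_cast h2
      rw [mul_comm, ← h3]
    · rw [Nat.factorization_eq_zero_of_not_prime _ hq, Nat.factorization_eq_zero_of_not_prime _ hq]
      simp
  rcases Nat.eq_zero_or_pos (a.factorization p) with h0 | h0
  · rw [h0, pow_zero] at heq
    have : 1 < a ^ b.factorization p := Nat.one_lt_pow (by omega) (by omega)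
    omega
  · exact h _ _ hy h0 heq

lemma fact_log {N p : ℕ} (hN : N ≠ 0) (hp : p.Prime) :
    (N.factorization p : ℝ) * Real.log 2 ≤ Real.log N := by
  have h1 : p ^ N.factorization p ≤ N := Nat.ordProj_le p hN
  have h2 : (2 : ℝ) ^ N.factorization p ≤ N := by
    calc (2 : ℝ) ^ N.factorization p ≤ (p : ℝ) ^ N.factorization p := by
          gcongr
          exact_mod_cast hp.two_le
      _ ≤ N := by exact_mod_cast h1
  rw [← Real.log_pow]
  exact Real.log_le_log (by positivity) h2

/-- two powers of multiplicatively independent numbers have no simple ratio -/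
lemma ratio {a b : ℕ} (ha : 2 ≤ a) (hb : 2 ≤ b) (h : MultIndep a b) :
    ∃ V : ℝ, 0 ≤ V ∧ ∀ (n n' : ℕ) (A A' z z' : ℤ), A ≠ 0 → A' ≠ 0 → z ≠ 0 → z' ≠ 0 →
      A * (z' * (b : ℤ) ^ n') = A' * (z * (a : ℤ) ^ n) →
      (n : ℝ) * Real.log 2 ≤ V * (Real.log |(A : ℝ)| + Real.log |(A' : ℝ)| + Real.log |(z : ℝ)| +
        Real.log |(z' : ℝ)|) := by
  obtain ⟨p, q, hp, hq, hD⟩ := exists_minor ha hb h
  refine ⟨b.factorization q + b.factorization p, by positivity, ?_⟩
  intro n n' A A' z z' hA hA' hz hz' he
  have hAn : A.natAbs ≠ 0 := Int.natAbs_ne_zero.2 hA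
  have hAn' : A'.natAbs ≠ 0 := Int.natAbs_ne_zero.2 hA'
  have hzn : z.natAbs ≠ 0 := Int.natAbs_ne_zero.2 hz
  have hzn' : z'.natAbs ≠ 0 := Int.natAbs_ne_zero.2 hz'
  have hbn : b ^ n' ≠ 0 := pow_ne_zero _ (by omega)
  have han : a ^ n ≠ 0 := pow_ne_zero _ (by omega)
  have he' : A.natAbs * (z'.natAbs * b ^ n') = A'.natAbs * (z.natAbs * a ^ n) := by
    have h1 := congrArg Int.natAbs he
    simpa [Int.natAbs_mul, Int.natAbs_pow] using h1
  have hfac : ∀ t : ℕ, A.natAbs.factorization t + (z'.natAbs.factorization t +
      n' * b.factorization t) = A'.natAbs.factorization t + (z.natAbs.factorization t +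
      n * a.factorization t) := by
    intro t
    have h1 := congrArg (fun N : ℕ => N.factorization t) he'
    rw [Nat.factorization_mul hAn (mul_ne_zero hzn' hbn), Nat.factorization_mul hzn' hbn,
      Nat.factorization_mul hAn' (mul_ne_zero hzn han), Nat.factorization_mul hzn han,
      Nat.factorization_pow, Nat.factorization_pow] at h1
    simpa using h1
  set E : ℝ := Real.log |(A : ℝ)| + Real.log |(A' : ℝ)| + Real.log |(z : ℝ)| +
        Real.log |(z' : ℝ)| with hE
  have habs : ∀ w : ℤ, Real.log |(w : ℝ)| = Real.log (w.natAbs : ℝ) := by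
    intro w
    rw [Nat.cast_natAbs]
    push_cast
    rfl
  have hdiff : ∀ t : ℕ, t.Prime →
      |(n : ℝ) * a.factorization t - n' * b.factorization t| * Real.log 2 ≤ E := by
    intro t ht
    have hl2 : 0 < Real.log 2 := Real.log_pos one_lt_two
    have h1 := fact_log hAn ht
    have h2 := fact_log hAn' ht
    have h3 := fact_log hzn ht
    have h4 := fact_log hzn' ht
    have h5 : (A.natAbs.factorization t : ℝ) + (z'.natAbs.factorization t +
      n' * b.factorization t) = A'.natAbs.factorization t + (z.natAbs.factorization t +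
      n * a.factorization t) := by exact_mod_cast hfac t
    have g1 : (0 : ℝ) ≤ (A.natAbs.factorization t : ℝ) := by positivity
    have g2 : (0 : ℝ) ≤ (A'.natAbs.factorization t : ℝ) := by positivity
    have g3 : (0 : ℝ) ≤ (z.natAbs.factorization t : ℝ) := by positivity
    have g4 : (0 : ℝ) ≤ (z'.natAbs.factorization t : ℝ) := by positivity
    have h6 : |(n : ℝ) * a.factorization t - n' * b.factorization t| ≤
        (A.natAbs.factorization t : ℝ) + A'.natAbs.factorization t + z.natAbs.factorization t +
          z'.natAbs.factorization t := by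
      rw [abs_le]
      constructor <;> linarith
    calc |(n : ℝ) * a.factorization t - n' * b.factorization t| * Real.log 2 ≤
        ((A.natAbs.factorization t : ℝ) + A'.natAbs.factorization t + z.natAbs.factorization t +
          z'.natAbs.factorization t) * Real.log 2 := by gcongr
      _ ≤ E := by
          rw [hE, habs, habs, habs, habs]
          linarith
  have hDR : (1 : ℝ) ≤ |(a.factorization p : ℝ) * b.factorization q -
      a.factorization q * b.factorization p| := by
    have h1 := Int.one_le_abs hD
    exact_mod_cast h1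
  have hid : (n : ℝ) * ((a.factorization p : ℝ) * b.factorization q -
      a.factorization q * b.factorization p) =
      ((n : ℝ) * a.factorization p - n' * b.factorization p) * b.factorization q -
      ((n : ℝ) * a.factorization q - n' * b.factorization q) * b.factorization p := by ring
  have hl2 : 0 < Real.log 2 := Real.log_pos one_lt_two
  have g1 := hdiff p hp
  have g2 := hdiff q hq
  calc (n : ℝ) * Real.log 2 ≤ (n * |(a.factorization p : ℝ) * b.factorization q -
      a.factorization q * b.factorization p|) * Real.log 2 := by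
        have : (n : ℝ) * 1 ≤ n * |(a.factorization p : ℝ) * b.factorization q -
          a.factorization q * b.factorization p| := by gcongr
        nlinarith
    _ = |((n : ℝ) * a.factorization p - n' * b.factorization p) * b.factorization q -
      ((n : ℝ) * a.factorization q - n' * b.factorization q) * b.factorization p| * Real.log 2 := by
        rw [← hid, abs_mul, Nat.abs_cast]
    _ ≤ (|(n : ℝ) * a.factorization p - n' * b.factorization p| * b.factorization q +
      |(n : ℝ) * a.factorization q - n' * b.factorization q| * b.factorization p) * Real.log 2 := by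
        gcongr
        refine (abs_sub _ _).trans ?_
        rw [abs_mul, abs_mul, Nat.abs_cast, Nat.abs_cast]
    _ = (|(n : ℝ) * a.factorization p - n' * b.factorization p| * Real.log 2) *
        b.factorization q + (|(n : ℝ) * a.factorization q - n' * b.factorization q| *
        Real.log 2) * b.factorization p := by ring
    _ ≤ E * b.factorization q + E * b.factorization p := by gcongr
    _ = _ := by ring

/-- the group generated by a finite set of positive numbers -/
def Gam (Sm : Finset ℕ) : Subgroup ℚˣ :=
  Subgroup.closure {u : ℚˣ | ∃ p ∈ Sm, (u : ℚ) = p}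

lemma Gam_fg (Sm : Finset ℕ) : (Gam Sm).FG := by
  rw [Subgroup.fg_iff]
  refine ⟨_, rfl, ?_⟩
  have h : Set.InjOn (fun u : ℚˣ => (u : ℚ)) {u : ℚˣ | ∃ p ∈ Sm, (u : ℚ) = p} :=
    fun x _ y _ hxy => Units.ext hxy
  refine Set.Finite.of_finite_image ((Sm.image (fun p : ℕ => (p : ℚ))).finite_toSet.subset ?_) h
  rintro _ ⟨u, ⟨p, hp, hu⟩, rfl⟩
  simp only [coe_image, Set.mem_image, Finset.mem_coe]
  exact ⟨p, hp, hu.symm⟩

lemma mem_Gam {Sm : Finset ℕ} (n : ℕ) (hn : n ≠ 0) (h : n.primeFactors ⊆ Sm) :
    ∃ g ∈ Gam Sm, (n : ℚ) = (g : ℚ) := by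
  induction n using Nat.recOnMul with
  | zero => exact absurd rfl hn
  | one => exact ⟨1, one_mem _, by simp⟩
  | prime p hp =>
    refine ⟨Units.mk0 (p : ℚ) (by exact_mod_cast hp.ne_zero), Subgroup.subset_closure ?_, rfl⟩
    refine ⟨p, h ?_, rfl⟩
    rw [Nat.mem_primeFactors]
    exact ⟨hp, dvd_rfl, hp.ne_zero⟩
  | mul a b ha hb =>
    have ha0 : a ≠ 0 := left_ne_zero_of_mul hn
    have hb0 : b ≠ 0 := right_ne_zero_of_mul hn
    rw [Nat.primeFactors_mul ha0 hb0] at h
    obtain ⟨g, hg, hg2⟩ := ha ha0 (subset_union_left.trans h)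
    obtain ⟨g', hg', hg2'⟩ := hb hb0 (subset_union_right.trans h)
    exact ⟨g * g', mul_mem hg hg', by push_cast; rw [hg2, hg2']⟩

end Pool.Agent.Q270.MB
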