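import Pool.Agent.Q270.MB.Disc
import Pool.Agent.Q270.SR.Fin1

/-!
# Joint digits in multiplicatively independent bases
-/

set_option autoImplicit false

namespace Pool.Agent.Q270.MB

open Finset Real MeasureTheory Filter Topology ProbabilityTheory Polynomial
open Pool.Agent.Y951.TU (hat lin lin_apply unif unif_prob integral_unif tw mnT cvT)
open Pool.Agent.Q270.SP (GoodT)
open Pool.Agent.Q270.SR (Disc AlgS mem_AlgS SA SA_prob Moderate)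
open Pool.Agent.Y933.KG (Alg Alg_finite alg_hat)

variable {r n : ℕ} {ι : Type*}

lemma unif_map (σ : Fin n → Fin r) (I : Finset ι) (x : ι → Fin r → ℝ) :
    (unif I x).map (fun x j => x (σ j)) = unif I (fun m j => x m (σ j)) := by
  ext s hs
  have hs' := measurable_rep σ hs
  rw [Measure.map_apply (measurable_rep σ) hs]
  unfold unif
  rw [Measure.smul_apply, Measure.finsetSum_apply, Measure.smul_apply, Measure.finsetSum_apply]
  congr 1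
  refine sum_congr rfl fun m _ => ?_
  rw [Measure.dirac_apply' _ hs', Measure.dirac_apply' _ hs]
  rfl

lemma unif_mem (σ : Fin n → Fin r) {S : ℕ → Set (Measure (Fin r → ℝ))} {M : ℕ} {I : Finset ι}
    {x : ι → Fin r → ℝ} (h : unif I x ∈ S M) : unif I (fun m j => x m (σ j)) ∈ SRep σ S M :=
  ⟨_, h, (unif_map σ I x).symm⟩

lemma size_of_T {S : ℕ → Set (Measure (Fin r → ℝ))} (hG : GoodT r S) {κ A : ℝ} (hκ : 0 ≤ κ)
    (hA : 0 ≤ A) : SizeB r S κ A := by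
  obtain ⟨η, hη, M0, hM0⟩ := hG A hA
  refine ⟨η, hη, max M0 1, fun M hM P hP l hl1 hl2 => hM0 M (le_of_max_le_left hM) P hP l ?_ hl2⟩
  obtain ⟨j, hj⟩ := hl1
  have hM1 : (1 : ℝ) ≤ M := by exact_mod_cast le_of_max_le_right hM
  have h1 : 1 ≤ |(l j : ℝ)| := (Real.one_le_rpow hM1 hκ).trans hj
  rintro rfl
  simp only [Pi.zero_apply, Int.cast_zero, abs_zero] at h1
  linarith

lemma size_SA (q : ℕ) (κ A : ℝ) (hκ : 0 < κ) :
    ∃ c : ℝ, 0 < c ∧ SizeB 1 (SA q c) κ A ∧ ∃ H0 : ℕ, ∀ H : ℕ, H0 ≤ H → (AlgS q H).Nonempty := by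
  obtain ⟨c, hc, ρ, hρ, H0, hH0⟩ := alg_hat q (⌈A⌉₊ + 1) (by omega) κ hκ
  refine ⟨c, hc, ⟨ρ, hρ, max H0 1, ?_⟩, H0, ?_⟩
  · intro H hH P hP l hl1 hl2
    have hHH0 : H0 ≤ H := le_of_max_le_left hH
    have hHR : (1 : ℝ) ≤ H := by exact_mod_cast le_of_max_le_right hH
    obtain ⟨hne, G, ⟨hG1, hG2, hG3, hG4⟩, rfl⟩ := hP
    have hcard : (0 : ℝ) < (AlgS q H).card := by exact_mod_cast hne.card_pos
    obtain ⟨j, hj⟩ := hl1
    have hj0 : j = 0 := Subsingleton.elim _ _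
    subst hj0
    have h1 := (hH0 H hHH0).2 G hG1 hG2 hG3 hG4 (l 0) hj ((hl2 0).trans
      (Real.rpow_le_rpow_of_exponent_le hHR (by
        push_cast
        linarith [Nat.le_ceil A]))) (AlgS q H) (mem_AlgS q H)
    unfold hat
    rw [integral_unif]
    have h2 : ∑ x ∈ AlgS q H, Pool.Agent.Y933.KD.e (lin 1 l fun _ => G.eval x) =
        ∑ x ∈ AlgS q H, Pool.Agent.H469R2.NK.e ((l 0 : ℝ) * G.eval x) := by
      refine sum_congr rfl fun x _ => ?_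
      rw [lin_apply, Fin.sum_univ_one]
      rfl
    rw [h2, norm_mul, norm_div, norm_one, Complex.norm_natCast, one_div, inv_mul_le_iff₀ hcard]
    exact h1
  · intro H hH
    obtain ⟨x, hx⟩ := (hH0 H hH).1
    exact ⟨x, (mem_AlgS q H x).2 hx⟩

/-- the bases which may be used -/
def Adm (σ : Fin n → Fin r) (b : Fin n → ℕ) : Prop :=
  ∀ j j', j ≠ j' → σ j = σ j' → MultIndep (b j) (b j')

lemma TW_rep (σ : Fin n → Fin r) {S : ℕ → Set (Measure (Fin r → ℝ))} {κ Am : ℝ}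
    (hS : ∀ M, 1 ≤ M → ∀ P ∈ S M, IsProbabilityMeasure P)
    (hκ : 0 < κ) (hAm0 : 0 ≤ Am) (H : SizeB r S (κ / 2) (Am + 2)) (B : ℕ) (A : ℝ)
    (hAm : (|A| + |A + 1|) * log (max B 2) ≤ Am) (b : Fin n → ℕ)
    (hb : ∀ j, 2 ≤ b j ∧ b j ≤ B) (hadm : Adm σ b) (k : ℕ) :
    Pool.Agent.Y933.KE.TW (∏ j, b j) k (A + 1)
      (Pool.Agent.Q270.PX.SXS κ (SRep σ S) b A (A + 1)) :=
  TW_P (SRep_prob σ hS) (fun j => by have := (hb j).1; omega)
    (good_P σ hκ hAm0 H b (fun j => (hb j).1) hadm) A (A + 1) (B1 := max B 2)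
    (le_trans (by norm_num) (le_max_right _ _))
    (fun j => le_trans (by exact_mod_cast (hb j).2) (le_max_left _ _)) hAm k

open Classical in
theorem disc_rep (σ : Fin n → Fin r) {S : ℕ → Set (Measure (Fin r → ℝ))} {κ Am : ℝ}
    (hS : ∀ M, 1 ≤ M → ∀ P ∈ S M, IsProbabilityMeasure P)
    (hκ : 0 < κ) (hAm0 : 0 ≤ Am) (H : SizeB r S (κ / 2) (Am + 2)) (hn : 1 ≤ n) (B : ℕ)
    (A T ε : ℝ) (hε : 0 < ε) (hAm : (|A| + |A + 1|) * log (max B 2) ≤ Am) :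
    ∃ M₀ : ℕ, ∀ M : ℕ, M₀ ≤ M → ∀ (I : Finset ι) (x : ι → Fin r → ℝ),
      I.Nonempty → unif I x ∈ S M →
      ((I.filter (fun m => ¬ ∀ b : Fin n → ℕ, (∀ j, 2 ≤ b j ∧ b j ≤ B) → Adm σ b →
        ∀ (s : Fin n → ℕ) (N : ℕ), (∀ j, (M : ℝ) ^ κ ≤ (b j : ℝ) ^ s j) →
        (∀ j, (s j : ℝ) + N ≤ A * log M) →
          Disc b s N (fun j => x m (σ j)) ((log M) ^ (1 / 2 + ε)))).card : ℝ) ≤
        I.card * (log M) ^ (-T) := by
  obtain ⟨M0, h⟩ := disc_all_W (ι := ι) (κ := κ) (SRep_prob σ hS) hn B A T ε hε (Adm σ)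
    (fun b hb hadm k => TW_rep σ hS hκ hAm0 H B A hAm b hb hadm k)
  exact ⟨M0, fun M hM I x hI hx => h M hM I (fun m j => x m (σ j)) hI (unif_mem σ hx)⟩

open Classical in
theorem clt_rep (σ : Fin n → Fin r) {S : ℕ → Set (Measure (Fin r → ℝ))} {κ Am : ℝ}
    (hS : ∀ M, 1 ≤ M → ∀ P ∈ S M, IsProbabilityMeasure P)
    (hκ : 0 < κ) (hAm0 : 0 ≤ Am) (H : SizeB r S (κ / 2) (Am + 2)) (hn : 1 ≤ n) (B : ℕ)
    {b : Fin n → ℕ} (hb : ∀ j, 2 ≤ b j ∧ b j ≤ B) (hadm : Adm σ b)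
    {w : ℕ} (hw : 1 ≤ w) (F : (Fin n → ℕ) → ℝ)
    (hF : 0 < cvT b w F 0 + 2 * ∑ h ∈ Finset.Ico 1 w, cvT b w F h) (A : ℝ)
    (hAm : (|A| + |A + 1|) * log (max B 2) ≤ Am)
    (T : ℕ → Finset ι) (x : ℕ → ι → Fin r → ℝ)
    (hT : ∀ᶠ M : ℕ in atTop, (T M).Nonempty ∧ unif (T M) (x M) ∈ S M)
    (s : ℕ → Fin n → ℕ) (N : ℕ → ℕ) (hN : Tendsto N atTop atTop)
    (hsκ : ∀ᶠ M : ℕ in atTop, ∀ j, (M : ℝ) ^ κ ≤ (b j : ℝ) ^ s M j)
    (hsN : ∀ᶠ M : ℕ in atTop, ∀ j, (s M j : ℝ) + N M ≤ A * log M) (a : ℝ) :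
    Tendsto (fun M : ℕ => (((T M).filter (fun m =>
      ∑ i ∈ range (N M), F (tw b w (fun j => s M j + i) (fun j => x M m (σ j))) -
        N M * mnT b w F ≤
        a * √((cvT b w F 0 + 2 * ∑ h ∈ Finset.Ico 1 w, cvT b w F h) * N M))).card : ℝ) /
        (T M).card) atTop
      (𝓝 ((gaussianReal 0 1).real (Set.Iic a))) :=
  clt_W (κ := κ) (S := SRep σ S) (SRep_prob σ hS) (fun j => by have := (hb j).1; omega) hw F hF A
    (TW_rep σ hS hκ hAm0 H B A hAm b hb hadm) T (fun M m j => x M m (σ j))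
    (hT.mono fun M hM => ⟨hM.1, unif_mem σ hM.2⟩) s N hn hN hsκ hsN a

end Pool.Agent.Q270.MB
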