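import Pool.Agent.Q270.MB.Indep

/-!
# Minimal vanishing sums
-/

set_option autoImplicit false

namespace Pool.Agent.Q270.MB

open Finset

/-- the terms of a minimal vanishing sum of `N` terms, up to a common factor, are small -/
lemma minimal_fin (Sm : Finset ℕ) (N : ℕ) (hN : 1 ≤ N) :
    ∃ K : ℝ, 1 ≤ K ∧ ∀ X : ℝ, 1 ≤ X → ∀ (s : Fin N → ℕ) (h : Fin N → ℤ),
      (∀ i, s i ≠ 0 ∧ (s i).primeFactors ⊆ Sm) → (∀ i, h i ≠ 0 ∧ |(h i : ℝ)| ≤ X) →
      ∑ i, h i * (s i : ℤ) = 0 →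
      (∀ T : Finset (Fin N), T.Nonempty → T ≠ univ → ∑ i ∈ T, h i * (s i : ℤ) ≠ 0) →
      ∃ (A : Fin N → ℤ) (G : ℤ), G ≠ 0 ∧ ∀ i, A i ≠ 0 ∧ h i * (s i : ℤ) = G * A i ∧
        |(A i : ℝ)| ≤ (K * X) ^ K := by
  classical
  obtain ⟨K0, hK0, hmain⟩ := Pool.Agent.TH551.HA.ntGcd N 1 N id (fun _ => 1) (fun _ => le_rfl)
    (Gam Sm) (Gam_fg Sm) (1 / 2) (by norm_num)
  set K1 : ℝ := max K0 1 with hK1
  have hK11 : 1 ≤ K1 := le_max_right _ _
  refine ⟨2 * K1 + 2 * N * N, by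
    have : (0 : ℝ) ≤ 2 * N * N := by positivity
    linarith, ?_⟩
  intro X hX s h hs hh hsum hsub
  have ha0 : ∀ i, h i * (s i : ℤ) ≠ 0 := fun i =>
    mul_ne_zero (hh i).1 (by exact_mod_cast (hs i).1)
  have hne : (univ : Finset (Fin N)).Nonempty := ⟨⟨0, hN⟩, mem_univ _⟩
  obtain ⟨A, hA, hgcd⟩ := Finset.extract_gcd (fun i => h i * (s i : ℤ)) hne
  set G : ℤ := univ.gcd (fun i => h i * (s i : ℤ)) with hG
  have hG0 : G ≠ 0 := by
    intro h0
    have h1 := hA ⟨0, hN⟩ (mem_univ _)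
    rw [h0, zero_mul] at h1
    exact ha0 _ h1
  have hA' : ∀ i, h i * (s i : ℤ) = G * A i := fun i => hA i (mem_univ i)
  have hA0 : ∀ i, A i ≠ 0 := fun i h0 => ha0 i (by rw [hA' i, h0, mul_zero])
  -- the smooth part
  set w : Fin N → ℤ := fun i => (Int.gcd (A i) (s i) : ℤ) with hw
  have hwpos : ∀ i, Int.gcd (A i) (s i) ≠ 0 := fun i h0 => hA0 i (Int.gcd_eq_zero_iff.1 h0).1
  have hx : ∀ i, ∃ x : ℤ, A i = w i * x ∧ x ∣ h i := by
    intro i
    obtain ⟨x, hx⟩ := Int.gcd_dvd_left (A i) (s i)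
    obtain ⟨y, hy⟩ := Int.gcd_dvd_right (A i) (s i)
    refine ⟨x, hx, ?_⟩
    have hg0 : ((Int.gcd (A i) (s i) : ℕ) : ℤ) ≠ 0 := by exact_mod_cast hwpos i
    have hcop : IsCoprime x y := by
      rw [Int.isCoprime_iff_gcd_eq_one]
      have h1 : Int.gcd (A i) (s i) * Int.gcd x y = Int.gcd (A i) (s i) * 1 := by
        have h2 := Int.gcd_mul_left ((Int.gcd (A i) (s i) : ℕ) : ℤ) x y
        rw [← hx, ← hy, Int.natAbs_natCast] at h2
        rw [mul_one]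
        exact h2.symm
      exact Nat.eq_of_mul_eq_mul_left (Nat.pos_of_ne_zero (hwpos i)) h1
    have h3 : h i * y = G * x := by
      have h4 := hA' i
      rw [hy] at h4
      have h5 : A i = ((Int.gcd (A i) (s i) : ℕ) : ℤ) * x := hx
      have h6 : ((Int.gcd (A i) (s i) : ℕ) : ℤ) * (h i * y) =
          ((Int.gcd (A i) (s i) : ℕ) : ℤ) * (G * x) := by
        calc ((Int.gcd (A i) (s i) : ℕ) : ℤ) * (h i * y) =
              h i * (((Int.gcd (A i) (s i) : ℕ) : ℤ) * y) := by ring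
          _ = G * A i := h4
          _ = G * (((Int.gcd (A i) (s i) : ℕ) : ℤ) * x) := congrArg (fun t => G * t) h5
          _ = ((Int.gcd (A i) (s i) : ℕ) : ℤ) * (G * x) := by ring
      exact mul_left_cancel₀ hg0 h6
    exact hcop.dvd_of_dvd_mul_right (Dvd.intro_left G h3.symm)
  choose x hx1 hx2 using hx
  have hx0 : ∀ i, x i ≠ 0 := fun i h0 => hA0 i (by rw [hx1 i, h0, mul_zero])
  have hxX : ∀ i, |(x i : ℝ)| ≤ X := by
    intro i
    refine le_trans ?_ (hh i).2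
    have h1 : |x i| ≤ |h i| := by
      have := Int.natAbs_dvd_natAbs.2 (hx2 i)
      have h2 := Nat.le_of_dvd (Int.natAbs_pos.2 (hh i).1) this
      rw [Int.abs_eq_natAbs, Int.abs_eq_natAbs]
      exact_mod_cast h2
    exact_mod_cast h1
  have hsumA : ∑ i, A i = 0 := by
    have h1 : G * ∑ i, A i = 0 := by
      rw [mul_sum, ← hsum]
      exact sum_congr rfl fun i _ => (hA' i).symm
    exact (mul_eq_zero.1 h1).resolve_left hG0
  have key := hmain X hX (fun _ _ => 1) (fun i _ => x i) (fun i _ => hxX i) x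
    (fun i => by simp) w A (fun i => by
      have h1 : Int.gcd (A i) (s i) ∣ s i := by
        have := Int.gcd_dvd_right (A i) (s i)
        exact_mod_cast this
      obtain ⟨g, hg, hg2⟩ := mem_Gam (Sm := Sm) (Int.gcd (A i) (s i)) (hwpos i)
        ((Nat.primeFactors_mono h1 (hs i).1).trans (hs i).2)
      refine ⟨g, hg, ?_⟩
      rw [hw]
      push_cast
      exact hg2) (fun i => by
      rw [hx1 i]
      congr 1
      have h1 : (univ.filter fun i' : Fin N => id i' = i) = {i} := by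
        ext i'
        simp
      rw [h1, prod_singleton, pow_one]) hA0 hsumA hgcd (fun T hT1 hT2 h0 => by
      apply hsub T hT1 hT2
      calc ∑ i ∈ T, h i * (s i : ℤ) = G * ∑ i ∈ T, A i := by
            rw [mul_sum]
            exact sum_congr rfl fun i _ => hA' i
        _ = 0 := by rw [h0, mul_zero])
  refine ⟨A, G, hG0, fun i => ⟨hA0 i, hA' i, ?_⟩⟩
  have h1 := key i
  have hX0 : 0 < X := by linarith
  have hx1' : ∀ i, 1 ≤ |(x i : ℝ)| := fun i => by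
    have := Int.one_le_abs (hx0 i)
    exact_mod_cast this
  have hprod : (∏ i, |(x i : ℝ)| ^ (min 1 (N - 2))) ^ (N - 2) ≤ X ^ (N * N) := by
    have g1 : ∏ i, |(x i : ℝ)| ^ (min 1 (N - 2)) ≤ X ^ N := by
      calc ∏ i, |(x i : ℝ)| ^ (min 1 (N - 2)) ≤ ∏ _i : Fin N, X := by
            refine prod_le_prod (fun i _ => by positivity) fun i _ => ?_
            calc |(x i : ℝ)| ^ (min 1 (N - 2)) ≤ |(x i : ℝ)| ^ 1 :=
                  pow_le_pow_right₀ (hx1' i) (min_le_left _ _)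
              _ ≤ X := by rw [pow_one]; exact hxX i
        _ = X ^ N := by rw [prod_const, card_univ, Fintype.card_fin]
    calc (∏ i, |(x i : ℝ)| ^ (min 1 (N - 2))) ^ (N - 2) ≤ (X ^ N) ^ (N - 2) :=
          pow_le_pow_left₀ (prod_nonneg fun i _ => by positivity) g1 _
      _ ≤ (X ^ N) ^ N := pow_le_pow_right₀ (one_le_pow₀ hX) (Nat.sub_le _ _)
      _ = X ^ (N * N) := by rw [← pow_mul]
  have hKX : (K0 * X) ^ K0 ≤ (K1 * X) ^ K1 := by
    have g1 : 1 ≤ K1 * X := by nlinarith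
    calc (K0 * X) ^ K0 ≤ (K1 * X) ^ K0 := by
          apply Real.rpow_le_rpow (by positivity) _ hK0.le
          gcongr
          exact le_max_left _ _
      _ ≤ (K1 * X) ^ K1 := Real.rpow_le_rpow_of_exponent_le g1 (le_max_left _ _)
  have h2 : |(A i : ℝ)| ^ (1 / 2 : ℝ) ≤ (K1 * X) ^ K1 * X ^ (N * N) := by
    have h3 : (1 : ℝ) - 1 / 2 = 1 / 2 := by norm_num
    rw [h3] at h1
    refine h1.trans ?_
    gcongr
  have hA00 : 0 ≤ |(A i : ℝ)| := abs_nonneg _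
  have h4 : |(A i : ℝ)| = (|(A i : ℝ)| ^ (1 / 2 : ℝ)) ^ 2 := by
    rw [← Real.sqrt_eq_rpow, Real.sq_sqrt hA00]
  rw [h4]
  set K2 : ℝ := 2 * K1 + 2 * N * N with hK2
  have hK12 : K1 ≤ K2 := by
    have : (0 : ℝ) ≤ 2 * N * N := by positivity
    linarith
  have hKX1 : 1 ≤ K2 * X := by nlinarith
  calc (|(A i : ℝ)| ^ (1 / 2 : ℝ)) ^ 2 ≤ ((K1 * X) ^ K1 * X ^ (N * N)) ^ 2 := by gcongr
    _ ≤ ((K2 * X) ^ K1 * (K2 * X) ^ (N * N)) ^ 2 := by
        gcongr
        nlinarith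
    _ = (K2 * X) ^ K2 := by
        rw [mul_pow, ← Real.rpow_natCast ((K2 * X) ^ K1) 2, ← Real.rpow_mul (by positivity),
          ← pow_mul, ← Real.rpow_natCast (K2 * X), ← Real.rpow_add (by positivity)]
        congr 1
        rw [hK2]
        push_cast
        ring

/-- the same for a set of indices -/
lemma minimal (Sm : Finset ℕ) (k : ℕ) :
    ∃ K : ℝ, 1 ≤ K ∧ ∀ X : ℝ, 1 ≤ X → ∀ (T : Finset (Fin k)) (s : Fin k → ℕ) (h : Fin k → ℤ),
      T.Nonempty → (∀ i ∈ T, s i ≠ 0 ∧ (s i).primeFactors ⊆ Sm) →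
      (∀ i ∈ T, h i ≠ 0 ∧ |(h i : ℝ)| ≤ X) → ∑ i ∈ T, h i * (s i : ℤ) = 0 →
      (∀ T' ⊆ T, T'.Nonempty → T' ≠ T → ∑ i ∈ T', h i * (s i : ℤ) ≠ 0) →
      ∃ (A : Fin k → ℤ) (G : ℤ), G ≠ 0 ∧ ∀ i ∈ T, A i ≠ 0 ∧ h i * (s i : ℤ) = G * A i ∧
        |(A i : ℝ)| ≤ (K * X) ^ K := by
  classical
  have hall : ∀ N : ℕ, ∃ K : ℝ, 1 ≤ K ∧ (1 ≤ N → ∀ X : ℝ, 1 ≤ X →
      ∀ (s : Fin N → ℕ) (h : Fin N → ℤ),
      (∀ i, s i ≠ 0 ∧ (s i).primeFactors ⊆ Sm) → (∀ i, h i ≠ 0 ∧ |(h i : ℝ)| ≤ X) →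
      ∑ i, h i * (s i : ℤ) = 0 →
      (∀ T : Finset (Fin N), T.Nonempty → T ≠ univ → ∑ i ∈ T, h i * (s i : ℤ) ≠ 0) →
      ∃ (A : Fin N → ℤ) (G : ℤ), G ≠ 0 ∧ ∀ i, A i ≠ 0 ∧ h i * (s i : ℤ) = G * A i ∧
        |(A i : ℝ)| ≤ (K * X) ^ K) := by
    intro N
    rcases Nat.eq_zero_or_pos N with h0 | h0
    · exact ⟨1, le_rfl, fun h => by omega⟩
    · obtain ⟨K, hK, h⟩ := minimal_fin Sm N h0
      exact ⟨K, hK, fun _ => h⟩
  choose K0 hK0 hmain using hall
  refine ⟨∑ N ∈ range (k + 1), K0 N, ?_, ?_⟩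
  · have h1 : K0 0 ≤ ∑ N ∈ range (k + 1), K0 N :=
      Finset.single_le_sum (f := K0) (fun N _ => by linarith [hK0 N]) (by simp)
    linarith [hK0 0]
  intro X hX T s h hT hs hh hsum hsub
  set N : ℕ := T.card with hN
  have hN1 : 1 ≤ N := hT.card_pos
  have hNk : N ∈ range (k + 1) := by
    rw [mem_range, hN]
    have := card_le_univ T
    rw [Fintype.card_fin] at this
    omega
  set e : T ≃ Fin N := T.equivFin with he
  have hes : ∀ f : Fin k → ℤ, ∀ U : Finset (Fin N),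
      ∑ σ ∈ U, f (e.symm σ : Fin k) = ∑ i ∈ U.image (fun σ => (e.symm σ : Fin k)), f i := by
    intro f U
    rw [sum_image]
    intro σ _ σ' _ h1
    exact e.symm.injective (Subtype.ext h1)
  have himg : (univ : Finset (Fin N)).image (fun σ => (e.symm σ : Fin k)) = T := by
    ext i
    simp only [mem_image, mem_univ, true_and]
    constructor
    · rintro ⟨σ, rfl⟩
      exact (e.symm σ).2
    · intro hi
      exact ⟨e ⟨i, hi⟩, by simp⟩
  obtain ⟨A, G, hG, hA⟩ := hmain N hN1 X hX (fun σ => s (e.symm σ)) (fun σ => h (e.symm σ))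
    (fun σ => hs _ (e.symm σ).2) (fun σ => hh _ (e.symm σ).2) (by
      have h1 := hes (fun i => h i * (s i : ℤ)) univ
      rw [h1, himg, hsum]) (fun U hU1 hU2 => by
      have h1 := hes (fun i => h i * (s i : ℤ)) U
      rw [h1]
      apply hsub
      · intro i hi
        rw [mem_image] at hi
        obtain ⟨σ, _, rfl⟩ := hi
        exact (e.symm σ).2
      · exact hU1.image _
      · intro h2
        apply hU2
        have h2' := h2.trans himg.symm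
        apply Finset.image_injective _ h2'
        intro σ σ' h3
        exact e.symm.injective (Subtype.ext h3))
  refine ⟨fun i => if hi : i ∈ T then A (e ⟨i, hi⟩) else 0, G, hG, fun i hi => ?_⟩
  simp only [dif_pos hi]
  obtain ⟨h1, h2, h3⟩ := hA (e ⟨i, hi⟩)
  simp only [Equiv.symm_apply_apply] at h2
  refine ⟨h1, h2, h3.trans ?_⟩
  have hKN : K0 N ≤ ∑ N ∈ range (k + 1), K0 N :=
    Finset.single_le_sum (f := K0) (fun N _ => by linarith [hK0 N]) hNk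
  have g1 := hK0 N
  have g2 : 1 ≤ (∑ N ∈ range (k + 1), K0 N) * X := by nlinarith
  calc (K0 N * X) ^ K0 N ≤ ((∑ N ∈ range (k + 1), K0 N) * X) ^ K0 N := by
        apply Real.rpow_le_rpow (by positivity) _ (by linarith)
        gcongr
    _ ≤ _ := Real.rpow_le_rpow_of_exponent_le g2 hKN

end Pool.Agent.Q270.MB
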